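import Mathlib

open Finset

namespace Pool.Agent.Results.MP_01f920_co.EKRFails

/-- The class `X_i` of the partition of `[n]` (here `Fin n`) described by `c : Fin n → Fin d`. -/
def cls {n d : ℕ} (c : Fin n → Fin d) (i : Fin d) : Finset (Fin n) :=
  univ.filter fun x => c x = i

/-- The family of all `k`-subsets `F` of `[n]` with `|F ∩ X_i| ≥ κ i` for every `i`. -/
def fam {n d : ℕ} (c : Fin n → Fin d) (κ : Fin d → ℕ) (k : ℕ) : Finset (Finset (Fin n)) :=
  univ.filter fun F => F.card = k ∧ ∀ i, κ i ≤ (F ∩ cls c i).card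

/-- The EKR property: every intersecting subfamily is at most as large as some full star. -/
def HasEKR {n : ℕ} (H : Finset (Finset (Fin n))) : Prop :=
  ∀ G ⊆ H, (∀ A ∈ G, ∀ B ∈ G, (A ∩ B).Nonempty) →
    ∃ x : Fin n, G.card ≤ (H.filter fun F => x ∈ F).card

/-- existence of a member of the family, missing `x`, that is large on `X_{i0}` -/
theorem exists_big {n d : ℕ} (c : Fin n → Fin d) (κ : Fin d → ℕ) (k : ℕ)
    (hκ : ∀ i, κ i < (cls c i).card) (hk : ∑ j, κ j ≤ k) (hkn : k < n)
    (i0 : Fin d) (h2 : 2 ≤ κ i0) (hsmall : (cls c i0).card < 2 * κ i0 + (k - ∑ j, κ j))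
    (x : Fin n) :
    ∃ F ∈ fam c κ k, x ∉ F ∧ (cls c i0).card - κ i0 + 1 ≤ (F ∩ cls c i0).card := by
  classical
  set a := (cls c i0).card - κ i0 + 1 with ha
  let b : Fin d → ℕ := fun i => if i = i0 then max a (κ i0) else κ i
  have hb : ∀ i, b i ≤ ((cls c i).erase x).card := by
    intro i
    have h1 : (cls c i).card - 1 ≤ ((cls c i).erase x).card := Finset.pred_card_le_card_erase
    have h3 := hκ i
    by_cases hi : i = i0
    · subst hi
      simp only [b, if_true]
      omega
    · simp only [b, if_neg hi]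
      omega
  choose t ht htc using fun i => Finset.exists_subset_card_eq (hb i)
  have htx : ∀ i, x ∉ t i := fun i hx => (Finset.notMem_erase x _) (ht i hx)
  have htcls : ∀ i, t i ⊆ cls c i := fun i => (ht i).trans (Finset.erase_subset _ _)
  let F0 := (univ : Finset (Fin d)).biUnion t
  have hdisj : ((univ : Finset (Fin d)) : Set (Fin d)).PairwiseDisjoint t := by
    intro i _ j _ hij
    rw [Function.onFun, Finset.disjoint_left]
    intro y hyi hyj
    have h1 := htcls i hyi
    have h2 := htcls j hyj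
    simp only [cls, mem_filter, mem_univ, true_and] at h1 h2
    exact hij (h1.symm.trans h2)
  have hF0c : F0.card = ∑ i, b i := by
    rw [Finset.card_biUnion (fun i hi j hj hij => hdisj hi hj hij)]
    exact Finset.sum_congr rfl fun i _ => htc i
  have hbsum : ∑ i, b i + κ i0 = ∑ i, κ i + max a (κ i0) := by
    have e1 : ∑ i, b i = b i0 + ∑ i ∈ univ.erase i0, b i :=
      (Finset.add_sum_erase _ _ (Finset.mem_univ i0)).symm
    have e2 : ∑ i, κ i = κ i0 + ∑ i ∈ univ.erase i0, κ i :=
      (Finset.add_sum_erase _ _ (Finset.mem_univ i0)).symm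
    have e3 : ∑ i ∈ univ.erase i0, b i = ∑ i ∈ univ.erase i0, κ i := by
      apply Finset.sum_congr rfl
      intro i hi
      simp only [b, if_neg (Finset.ne_of_mem_erase hi)]
    have e4 : b i0 = max a (κ i0) := by simp [b]
    rw [e1, e2, e3, e4]
    ring
  have hF0k : F0.card ≤ k := by
    have := hκ i0
    omega
  have hF0x : F0 ⊆ (univ : Finset (Fin n)).erase x := by
    intro y hy
    rw [Finset.mem_erase]
    refine ⟨?_, Finset.mem_univ _⟩
    rintro rfl
    obtain ⟨i, _, hi⟩ := Finset.mem_biUnion.1 hy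
    exact htx i hi
  have hkx : k ≤ ((univ : Finset (Fin n)).erase x).card := by
    rw [Finset.card_erase_of_mem (Finset.mem_univ _), Finset.card_univ, Fintype.card_fin]
    omega
  obtain ⟨F, hF1, hF2, hF3⟩ := Finset.exists_subsuperset_card_eq hF0x hF0k hkx
  have key : ∀ i, b i ≤ (F ∩ cls c i).card := by
    intro i
    rw [← htc i]
    apply Finset.card_le_card
    intro y hy
    rw [Finset.mem_inter]
    exact ⟨hF1 (Finset.mem_biUnion.2 ⟨i, Finset.mem_univ _, hy⟩), htcls i hy⟩
  refine ⟨F, ?_, ?_, ?_⟩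
  · simp only [fam, mem_filter, mem_univ, true_and]
    refine ⟨hF3, fun i => ?_⟩
    refine le_trans ?_ (key i)
    by_cases hi : i = i0
    · subst hi
      have := hκ i
      simp only [b, if_true]
      omega
    · simp only [b, if_neg hi, le_refl]
  · intro hx
    exact (Finset.notMem_erase x _) (hF2 hx)
  · have := key i0
    simp only [b, if_true] at this
    omega

/-- Main obstruction. -/
theorem not_ekr {n d : ℕ} (c : Fin n → Fin d) (κ : Fin d → ℕ) (k : ℕ)
    (hκ : ∀ i, κ i < (cls c i).card) (hk : ∑ j, κ j ≤ k) (hkn : k < n)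
    (hex : ∃ i0 : Fin d, 2 ≤ κ i0 ∧ (cls c i0).card < 2 * κ i0 + (k - ∑ j, κ j)) :
    ¬ HasEKR (fam c κ k) := by
  classical
  obtain ⟨i0, h2, hsmall⟩ := hex
  intro hEKR
  have hn : 0 < n := by omega
  have : Nonempty (Fin n) := ⟨⟨0, hn⟩⟩
  -- best star
  obtain ⟨x, _, hx⟩ := Finset.exists_max_image (univ : Finset (Fin n))
    (fun x => ((fam c κ k).filter fun F => x ∈ F).card) Finset.univ_nonempty
  set G : Finset (Finset (Fin n)) := (fam c κ k).filter fun F =>
    x ∈ F ∨ (cls c i0).card - κ i0 + 1 ≤ (F ∩ cls c i0).card with hG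
  have hGsub : G ⊆ fam c κ k := Finset.filter_subset _ _
  have hbig : ∀ A ∈ fam c κ k, ∀ B ∈ fam c κ k,
      (cls c i0).card - κ i0 + 1 ≤ (B ∩ cls c i0).card → (A ∩ B).Nonempty := by
    intro A hA B hB hBig
    simp only [fam, mem_filter, mem_univ, true_and] at hA
    by_contra hne
    rw [Finset.not_nonempty_iff_eq_empty] at hne
    have hd : Disjoint (A ∩ cls c i0) (B ∩ cls c i0) := by
      rw [Finset.disjoint_left]
      intro y hyA hyB
      have : y ∈ A ∩ B := Finset.mem_inter.2
        ⟨(Finset.mem_inter.1 hyA).1, (Finset.mem_inter.1 hyB).1⟩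
      rw [hne] at this
      exact absurd this (Finset.notMem_empty y)
    have hc := Finset.card_union_of_disjoint hd
    have hle : ((A ∩ cls c i0) ∪ (B ∩ cls c i0)).card ≤ (cls c i0).card :=
      Finset.card_le_card (Finset.union_subset Finset.inter_subset_right
        Finset.inter_subset_right)
    have h3 := hA.2 i0
    have h4 := hκ i0
    omega
  have hGint : ∀ A ∈ G, ∀ B ∈ G, (A ∩ B).Nonempty := by
    intro A hA B hB
    rw [hG, Finset.mem_filter] at hA hB
    rcases hB.2 with hxB | hbB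
    · rcases hA.2 with hxA | hbA
      · exact ⟨x, Finset.mem_inter.2 ⟨hxA, hxB⟩⟩
      · rw [Finset.inter_comm]
        exact hbig B hB.1 A hA.1 hbA
    · exact hbig A hA.1 B hB.1 hbB
  obtain ⟨y, hy⟩ := hEKR G hGsub hGint
  have hyx := hx y (Finset.mem_univ _)
  obtain ⟨F, hF, hxF, hFb⟩ := exists_big c κ k hκ hk hkn i0 h2 hsmall x
  have hlt : ((fam c κ k).filter fun F => x ∈ F).card < G.card := by
    apply Finset.card_lt_card
    rw [Finset.ssubset_iff_of_subset]
    · refine ⟨F, ?_, ?_⟩
      · rw [hG, Finset.mem_filter]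
        exact ⟨hF, Or.inr hFb⟩
      · rw [Finset.mem_filter]
        exact fun h => hxF h.2
    · intro A hA
      rw [Finset.mem_filter] at hA
      rw [hG, Finset.mem_filter]
      exact ⟨hA.1, Or.inl hA.2⟩
  omega

theorem card_cls_sigma {d : ℕ} (m : Fin d → ℕ) (i : Fin d) :
    (cls (fun x : Fin (∑ j, m j) => (finSigmaFinEquiv.symm x).1) i).card = m i := by
  classical
  have h1 : (cls (fun x : Fin (∑ j, m j) => (finSigmaFinEquiv.symm x).1) i).card
      = (univ.filter fun p : (j : Fin d) × Fin (m j) => p.1 = i).card := by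
    apply Finset.card_bij (fun x _ => finSigmaFinEquiv.symm x)
    · intro x hx
      simpa [cls] using hx
    · intro x _ y _ h
      exact finSigmaFinEquiv.symm.injective h
    · intro p hp
      refine ⟨finSigmaFinEquiv p, ?_, by simp⟩
      simpa [cls] using hp
  rw [h1]
  have h2 : (univ.filter fun p : (j : Fin d) × Fin (m j) => p.1 = i)
      = (univ : Finset (Fin (m i))).map ⟨fun y => (⟨i, y⟩ : (j : Fin d) × Fin (m j)),
          fun a b h => by simpa using h⟩ := by
    ext ⟨j, y⟩
    simp only [mem_filter, mem_univ, true_and, mem_map]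
    constructor
    · rintro rfl
      exact ⟨y, rfl⟩
    · rintro ⟨z, hz⟩
      rw [Sigma.mk.injEq] at hz
      exact hz.1.symm
  rw [h2, Finset.card_map, Finset.card_univ, Fintype.card_fin]

/-- (i) For every partition of `[n]` into classes `X_i` with `|X_i| > κ i` and every `k` with
`∑ κ j ≤ k < n`: if some class has `κ i ≥ 2` and `|X_i| < 2 κ i + s`, where `s = k - ∑ κ j`,
then the family fails the EKR property.
(ii) Consequently the statement of Q1 is false for every number `d ≥ 2` of classes, even with no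
exceptional index, with all `κ i > 0`, with `n ≥ 2k`, and with all classes but the first one
arbitrarily large. -/
theorem result :
    (∀ (d n : ℕ) (c : Fin n → Fin d) (κ : Fin d → ℕ) (k : ℕ),
      (∀ i, κ i < (cls c i).card) → ∑ j, κ j ≤ k → k < n →
      (∃ i, 2 ≤ κ i ∧ (cls c i).card < 2 * κ i + (k - ∑ j, κ j)) →
      ¬ HasEKR (fam c κ k)) ∧
    (∀ d N : ℕ, 2 ≤ d → ∃ (n : ℕ) (c : Fin n → Fin d) (κ : Fin d → ℕ) (k : ℕ),
      (∀ i, κ i < (cls c i).card) ∧ ∑ j, κ j ≤ k ∧
      (∀ i, 2 * κ i ≤ (cls c i).card) ∧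
      (∀ i, (k - ∑ j, κ j) + κ i < (cls c i).card) ∧
      (∀ i, 0 < κ i) ∧ 2 * k ≤ n ∧
      (∀ i : Fin d, (i : ℕ) ≠ 0 → N ≤ (cls c i).card) ∧
      ¬ HasEKR (fam c κ k)) := by
  refine ⟨fun d n c κ k => not_ekr c κ k, ?_⟩
  intro d N hd
  obtain ⟨e, rfl⟩ : ∃ e, d = e + 2 := ⟨d - 2, by omega⟩
  let m : Fin (e + 2) → ℕ := fun i => if i = 0 then 4 else N + 4
  let κ : Fin (e + 2) → ℕ := fun i => if i = 0 then 2 else 1
  have hκsum : ∑ j, κ j = e + 3 := by
    rw [Fin.sum_univ_succ]
    simp [κ]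
    ring
  have hmsum : ∑ j, m j = 4 + (e + 1) * (N + 4) := by
    rw [Fin.sum_univ_succ]
    simp [m]
  refine ⟨∑ j, m j, fun x => (finSigmaFinEquiv.symm x).1, κ, e + 4, ?_, ?_, ?_, ?_, ?_, ?_, ?_, ?_⟩
  · intro i
    rw [card_cls_sigma]
    by_cases hi : i = 0
    · simp [κ, m, hi]
    · simp [κ, m, hi]
  · omega
  · intro i
    rw [card_cls_sigma]
    by_cases hi : i = 0
    · simp [κ, m, hi]
    · simp [κ, m, hi]
  · intro i
    rw [card_cls_sigma, hκsum]
    by_cases hi : i = 0
    · simp [κ, m, hi]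
    · simp [κ, m, hi]
  · intro i
    by_cases hi : i = 0
    · simp [κ, hi]
    · simp [κ, hi]
  · rw [hmsum]
    nlinarith
  · intro i hi
    rw [card_cls_sigma]
    have hi' : i ≠ 0 := fun h => hi (by simp [h])
    simp [m, hi']
  · apply not_ekr
    · intro i
      rw [card_cls_sigma]
      by_cases hi : i = 0
      · simp [κ, m, hi]
      · simp [κ, m, hi]
    · omega
    · rw [hmsum]
      nlinarith
    · refine ⟨0, ?_, ?_⟩
      · simp [κ]
      · rw [card_cls_sigma, hκsum]
        simp [κ, m]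

end Pool.Agent.Results.MP_01f920_co.EKRFails
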